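import Pool.Agent.MDG.Defs

/-!
# Squad MDG: the rows (MP_3faef8_co)

THEOREM.  Every finite graph in which every vertex has degree `0` or at least `10 ^ 7` has an
equitable proper labelling with the labels `1, 2, 3`.  (Paper proof: note 3905.)

All counts `e2`, `sz` are counts of ordered pairs (twice the number of edges), `cut G W` is the
number of edges between `W` and its complement.  `bd x v = ∑ w, x v w`.  `M = 34 = 2 * 17`,
`k = 14000`.
-/

set_option autoImplicit false

open Finset Matrix Pool.Agent.HEC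

namespace Pool.Agent.MDG

/-! ## Block 1: cuts, the sign flow, realisation (as in squad HEC, with five levels) -/

/-- NS5 (uses `HEC.MctStmt`, easy).  Five nested maximum cuts (copy of `Helper32_HEC/NST`). -/
def Ns5Stmt : Prop := ∀ (V : Type) [Fintype V] (G : SimpleGraph V), Nonempty (Nest5 G)

/-- CP5 (no hypotheses, easy).  Capacities (copy of `Helper50_HEC/CAP`): with `g0 = cut G W`,
`g1 = cut (sam G t1) W`, ..., `g5 = cut S W`: `2 g5 ≤ g4`, `2 g4 ≤ g3`, ..., `2 g1 ≤ g0`,
`cut E5 W = g4 - g5`, `cut E4 W = g3 - g4`, `cut E3 W = g2 - g3`, `cut E2 W = g1 - g2`,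
`cut H W = g0 - g1`. -/
def Cp5Stmt : Prop := ∀ (V : Type) [Fintype V] (G : SimpleGraph V) (N : Nest5 G) (W : Finset V),
  16 * cut N.S W ≤ cut N.H W ∧ 8 * cut N.S W ≤ cut N.E2 W ∧ 4 * cut N.S W ≤ cut N.E3 W ∧
  2 * cut N.S W ≤ cut N.E4 W ∧ cut N.S W ≤ cut N.E5 W ∧ cut G W ≤ 2 * cut N.H W

/-- CN5 (no hypotheses, easy).  Numbers of edges (copy of `Helper5_HEC/CNT`). -/
def Cn5Stmt : Prop := ∀ (V : Type) [Fintype V] (G : SimpleGraph V) (N : Nest5 G),
  e2 G = e2 N.H + e2 N.E2 + e2 N.E3 + e2 N.E4 + e2 N.E5 + e2 N.S ∧ e2 G ≤ 2 * e2 N.H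

/-- BRY (no hypotheses, easy-medium).  A label function with small signed boundary vanishes on bridges.
PROOF. By symmetry let `u ∈ W`, `v ∉ W`, `cut H W = 1`, `H.Adj u v`: the only pair `(a, b)` with `a ∈ W`,
`b ∉ W`, `H.Adj a b` is `(u, v)`.  `∑ a ∈ W, sg (t a) * bd x a = ∑ a ∈ W, ∑ b ∈ W, sg (t a) * x a b +
∑ a ∈ W, ∑ b ∉ W, sg (t a) * x a b`; the first double sum is its own negative (swap; the ends of an edge have
opposite signs, `x` is symmetric), so `0`; the second is `sg (t u) * x u v`. -/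
def BryStmt : Prop := ∀ (V : Type) [Fintype V] (H : SimpleGraph V) (t : V → Bool) (x : V → V → ℝ)
    (W : Finset V) (u v : V), (∀ a b, H.Adj a b → t a ≠ t b) → (∀ a b, x a b = x b a) →
  (∀ a b, ¬ H.Adj a b → x a b = 0) → cut H W = 1 → u ∈ W → v ∉ W → H.Adj u v →
  ∑ a ∈ W, (sg (t a) : ℝ) * bd x a = (sg (t u) : ℝ) * x u v

/-- RE5 (uses CP5 CN5 `HEC.FloStmt` `HEC.RndStmt` `HEC.SgnStmt` BRY, medium-strong; model
`Helper59_HEC/REA`).  Realisation.
PROOF. Edges of `N.S` have ends with equal `t1, ..., t5`.  By SGN and CP5 for all `W`: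
`|∑ W sg (t1) 16 bd f| ≤ 16 cut S W ≤ cut H W`, and the same with `8, 4, 2, 1` for `E2, ..., E5`.  FLO gives
integral `y1` on `H` with boundary `16 bd f`, `x2, x3, x4, x5` on `E2, ..., E5` with the boundaries
`8, 4, 2, 1` times `bd f`.  BRIDGES: if `Bri H u v` with the cut `W`, then by BRY (for the function `y1`; replace
`W` by its complement if `v ∈ W`, or use that `Bri` is symmetric)
`y1 u v = ± ∑ W sg (t1) 16 bd f`, a multiple of `16` of absolute value at most `16 cut S W ≤ cut H W = 1`; so it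
is `0`.  Hence `x0 + y1 / 8` is a real function on `H` bounded by `1` (`7/8 + 1/8` at non bridges, `1 + 0` at
bridges), with the integral boundary `b + 2 bd f`; RND (with `t1`) gives `x1` on `H` with this
boundary and `sz x1 = ∑ ∑ |x1| ≤ ∑ ∑ |x0| + e2 H / 8 ≤ 0.255 e2 H`.
`x = x1 + x2 + x3 + x4 + x5` (disjoint supports) has the boundary `b + (2 + 8 + 4 + 2 + 1) bd f` and
`sz x ≤ 0.255 e2 H + e2 E2 + ... + e2 E5 ≤ e2 G - 0.745 e2 H ≤ 0.63 e2 G` by CN5. -/
def Re5Stmt : Prop := ∀ (V : Type) [Fintype V] (G : SimpleGraph V) (N : Nest5 G) (b : V → ℤ)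
    (x0 : V → V → ℝ) (f : V → V → ℤ),
  RLab N.H 1 x0 → (∀ u v, ¬ Bri N.H u v → |x0 u v| ≤ 7 / 8) → (∀ v, bd x0 v = (b v : ℝ)) →
  100 * ∑ u, ∑ v, |x0 u v| ≤ 13 * (e2 N.H : ℝ) → Ori N.S f →
  ∃ x : V → V → ℤ, Lab G x ∧ (∀ v, bd x v = b v + 17 * bd f v) ∧ 100 * sz x ≤ 63 * e2 G

/-- P17 (no hypotheses, easy).  The antisymmetric potential: copy of `Helper55_HEC/POT` with `17`
instead of `9` (reversing one edge changes the two values by `34`). -/
def P17Stmt : Prop := ∀ (V : Type) [Fintype V] (S : SimpleGraph V) (φ : V → ℤ),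
  ∃ f : V → V → ℤ, Ori S f ∧ ∀ u v, S.Adj u v → φ u + 17 * bd f u ≠ φ v + 17 * bd f v

/-! ## Block 2: decomposition into nodes -/

/-- ORD (no hypotheses, easy-medium).  Degeneracy order.
PROOF. Induction on `m`: for every `X` of cardinality `m` there is `ord : N → ℕ`, injective on `X`, such that
for `w ∈ X` the sum of `d w v` over the `v ∈ X` with `ord w < ord v` is `< K`.  `X = ∅` clear.
Otherwise choose `w0 ∈ X` with `∑ v ∈ X, d w0 v < K`, take `ord'` for `X.erase w0`, and put
`ord w0 = 0`, `ord v = ord' v + 1` for the others.  Take `X = univ`. -/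
def OrdStmt : Prop := ∀ (N : Type) [Fintype N] (d : N → N → ℕ) (K : ℕ),
  (∀ X : Finset N, X.Nonempty → ∃ w ∈ X, ∑ v ∈ X, d w v < K) →
  ∃ ord : N → ℕ, Function.Injective ord ∧
    ∀ w, ∑ v ∈ univ.filter (fun v => ord w < ord v), d w v < K

open Classical in
/-- DEG (no hypotheses, medium).  Sparse sets have nodes of small degree.
PROOF. First, by strong induction on `|X|`, for `X ⊆ X0` nonempty:
`∑ w ∈ X, ∑ v ∈ X, d w v ≤ 2 (k - 1) (|X| - 1)`.  `|X| = 1`: `d w w = 0`.  `|X| ≥ 2`: take `Y`; the double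
sum over `X` is the one over `Y` plus the one over `X \ Y` plus twice `∑ w ∈ Y, ∑ v ∈ X \ Y, d w v ≤ k - 1`
(symmetry), and `2 (k-1) (|Y| - 1) + 2 (k-1) (|X \ Y| - 1) + 2 (k-1) = 2 (k-1) (|X| - 1)`.  Then
not all `w ∈ X` can have `∑ v ∈ X, d w v ≥ 2 k`, because `2 k |X| > 2 (k-1) (|X| - 1)`. -/
def DegStmt : Prop := ∀ (V : Type) [Fintype V] (d : V → V → ℕ) (k : ℕ) (X0 : Finset V), 1 ≤ k →
  (∀ w v, d w v = d v w) → (∀ w, d w w = 0) →
  (∀ X ⊆ X0, 2 ≤ X.card → ∃ Y ⊆ X, Y.Nonempty ∧ Y ≠ X ∧ ∑ w ∈ Y, ∑ v ∈ X \ Y, d w v < k) →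
  ∀ X ⊆ X0, X.Nonempty → ∃ w ∈ X, ∑ v ∈ X, d w v < 2 * k

open Classical in
/-- BLO (no hypotheses, STRONG).  Maximal `k`-edge-connected subgraphs.
PROOF. Call `B : Finset V` a blob if it is nonempty and every nonempty `A ⊆ B`, `A ≠ B`, has
`k ≤ cut (res H B) A` (number of edges between `A` and `B \ A`).  Singletons are blobs.
UNION: if `B`, `B'` are blobs with a common element, then `B ∪ B'` is a blob: let `A ⊆ B ∪ B'` be
nonempty, not everything.  If `A ∩ B` is nonempty and not `B`, then
`cut (res H (B ∪ B')) A ≥ cut (res H B) (A ∩ B) ≥ k` (the pairs counted on the right are counted on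
the left); the same with `B'`.  Otherwise `A ∩ B ∈ {∅, B}` and `A ∩ B' ∈ {∅, B'}`; because of the common
element both are `∅` or both are everything, so `A = ∅` or `A = B ∪ B'`, excluded.
Put `u ~ v` if some blob contains both; this is an equivalence relation.  Let `p v` be a
representative of the class of `v` (`Quotient.out`).  CLASSES ARE BLOBS: let `B` be a blob with
`w ∈ B` of maximal cardinality; for `v ~ w` with the blob `B'`, `B ∪ B'` is a blob, so `B' ⊆ B`: `B` is the
class of `w`.  So `nde p w` is a blob if `p w = w`, and it is empty if `p w ≠ w` (second claim).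
LAST CLAIM: let `X` consist of `≥ 2` representatives, `B` the union of the `nde p w`, `w ∈ X`.  `B` is not a
blob (else two different classes would be equal), so there is a nonempty `A ⊆ B`, `A ≠ B`, with
`cut (res H B) A < k`.  For `w ∈ X`, `A ∩ nde p w` is `∅` or `nde p w` (else the cut is `≥ k` as above).  So `A`
is the union of the `nde p w`, `w ∈ Y`, with `Y ⊆ X` nonempty and `≠ X`, and `cut (res H B) A` is the
double sum (every pair `(a, b)`, `a ∈ A`, `b ∈ B \ A`, `H.Adj a b` is counted once, at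
`w = p a`, `v = p b`). -/
def BloStmt : Prop := ∀ (V : Type) [Fintype V] (H : SimpleGraph V) (k : ℕ), 1 ≤ k →
  ∃ p : V → V, (∀ v, p (p v) = p v) ∧
    (∀ (w : V) (A : Finset V), A ⊆ nde p w → A.Nonempty → A ≠ nde p w →
      k ≤ cut (res H (nde p w)) A) ∧
    ∀ X : Finset V, (∀ w ∈ X, p w = w) → 2 ≤ X.card → ∃ Y ⊆ X, Y.Nonempty ∧ Y ≠ X ∧
      ∑ w ∈ Y, ∑ v ∈ X \ Y, nd2 H p w v < k

/-- DEC (uses BLO DEG ORD, medium).  The decomposition.
PROOF. `p` from BLO.  Let `d w v = nd2 H p w v` if `w ≠ v` and `0` if `w = v` (symmetric, because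
`(a, b) ↦ (b, a)`).  `X0` = set of the `w` with `p w = w`.  For `X` nonempty (any set): if `X ⊆ X0` use DEG; if
`w ∈ X` has `p w ≠ w`, then `p v = w` is impossible (`p (p v) = p v`), so `d w v = 0` for all `v` and the
sum is `0 < 2 k`.  ORD gives `ord`, and the pairs `(a, b)` with `p a = w`, `H.Adj a b`, `ord w < ord (p b)` are the
disjoint union over `v` with `ord w < ord v` of the pairs counted in `nd2 H p w v`. -/
def DecStmt : Prop := ∀ (V : Type) [Fintype V] (H : SimpleGraph V) (k : ℕ), 1 ≤ k →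
  ∃ (p : V → V) (ord : V → ℕ), (∀ v, p (p v) = p v) ∧ Function.Injective ord ∧
    (∀ (w : V) (A : Finset V), A ⊆ nde p w → A.Nonempty → A ≠ nde p w →
      k ≤ cut (res H (nde p w)) A) ∧
    ∀ w, cnt (fun q : V × V => p q.1 = w ∧ H.Adj q.1 q.2 ∧ ord w < ord (p q.2)) < 2 * k

/-! ## Block 3: the flow between the nodes -/

/-- BRG (uses `HEC.FloStmt` BRY, medium).  A set is not left by exactly one non bridge.
PROOF. Suppose `(u0, v0)` is the only pair with `u ∈ W`, `v ∉ W`, `H.Adj u v`, `¬ Bri H u v`.  Let `E` be `H`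
without the edge `u0 v0` and `b v = -1` for `v = u0`, `v = v0`, `b v = 0` otherwise.  For every `W'`:
`|∑ v ∈ W', sg (t v) * b v|` is `0` if `W'` contains both or none of `u0, v0` (opposite signs) and `1`
otherwise; in this case `cut H W' ≠ 1` (no bridge), so `cut H W' ≥ 2` and `cut E W' = cut H W' - 1 ≥ 1`.
FLO gives `x` on `E` with `bd x = b`; `x' = x +` (the function `1` on the edge `u0 v0`, both directions)
satisfies `bd x' = 0`.  By BRY `x'` vanishes on every bridge.  The computation in BRY for `W`: `0 =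
∑ v ∈ W, sg (t v) * bd x' v` = sum of `sg (t u) * x' u v` over the pairs leaving `W` = the term of `(u0, v0)`
(all other pairs are bridges) `= ± 1`, contradiction. -/
def BrgStmt : Prop := ∀ (V : Type) [Fintype V] (H : SimpleGraph V) (t : V → Bool) (W : Finset V),
  (∀ a b, H.Adj a b → t a ≠ t b) →
  cnt (fun q : V × V => q.1 ∈ W ∧ q.2 ∉ W ∧ H.Adj q.1 q.2 ∧ ¬ Bri H q.1 q.2) ≠ 1

/-- TUT (no hypotheses, STRONG).  The gadget graph has a perfect matching, by Tutte's theorem
(`SimpleGraph.tutte` in Mathlib: `(∃ M, M.IsPerfectMatching) ↔ ∀ u, ¬ G.IsTutteViolator u`).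
PROOF. Let `u` be a set of elements of `Prt`, `T` the set of the `x : N` all of whose ports are in `u`
(all `x` without ports are in `T`, they have `g x = 0` because `2 g x ≤ 0`).  Let `K` be an odd component of
the gadget graph minus `u`.  TYPE 1: `K` is a single dummy at an `x ∈ T`; there are at most `∑ x ∈ T, g x` of
them.  TYPE 2: `K` contains a port of some `x ∉ T` (a dummy at `x ∉ T` is adjacent to every port at `x`,
and one of them is not in `u`).  Then `K` consists of all ports and dummies outside `u` of a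
nonempty set `B` of nodes outside `T` (the remaining ports of a node form a clique, the remaining
dummies are adjacent to all of them), and different components have disjoint sets `B`.
Let `e` be an edge with exactly one end in `B`, `x ∈ B`, `y ∉ B`: either `y ∈ T` (then the port `(y, e)` is in
`u`), or `y ∉ T` and one of the ports `(x, e)`, `(y, e)` is in `u` (else they would be adjacent and in the
same component).  CHARGES: let `mct B ≥ 2`.  Give `K` the charge `1/2` for every such `e`, so at least `1`: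
in the first case it is taken from the port `(y, e)` of `y ∈ T`, in the second case from a port on `e` in
`u` at a node outside `T`; such a port is used at most twice (once for each end), total `≤ 1`.
Let `mct B = 0` (`mct B = 1` is excluded): the number of all ports and dummies of `B` is
`2 * #(edges inside B) + ∑ x ∈ B, g x`, even, and `K` is odd, so an odd number, at least one,
of them is in `u`; take the charge `1` from one of them (it is a port on an edge inside `B` or a
dummy, not used by the other components).  SUM: number of type 2 components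
`≤ (1/2) #(ports of T) + #(elements of u at nodes outside T)`, and
`∑ x ∈ T, g x ≤ (1/2) #(ports of T)`.  Together: number of odd components
`≤ #(ports of T) + #(elements of u outside T) ≤ |u|`.  So `u` is not a Tutte violator. -/
def TutStmt : Prop := ∀ (N E : Type) [Fintype N] [Fintype E] (s t : E → N) (g : N → ℕ),
  (∀ e, s e ≠ t e) → (∀ W : Finset N, mct s t W ≠ 1) → (∀ x, Even (g x)) →
  (∀ x, 2 * g x ≤ mdg s t (fun _ => True) x) →
  ∃ M : (gdg s t g).Subgraph, M.IsPerfectMatching

/-- ESJ (no hypotheses, medium).  From the matching to the even set.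
PROOF. `J e` := the port `(s e, e)` is not matched with the port `(t e, e)`.  Fix `x`.  The ports `(x, e)` with
`¬ J e` are exactly the ones matched with a port of another node.  The dummies at `x` are matched
with `g x` different ports at `x`; the remaining ports at `x` are matched among themselves, in pairs.  So
the number of ports `(x, e)` with `J e`, which is `mdg s t J x` (every edge at `x` has one port at `x`
as `s e ≠ t e`), is `g x + even`.  (The matching is an involution on the set of the ports at `x`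
which are matched with ports at `x`, without fixed points: even number;
e.g. `Finset.card_involution`-type lemmas or `Equiv.Perm` cycle type, or pairing by induction.) -/
def EsjStmt : Prop := ∀ (N E : Type) [Fintype N] [Fintype E] (s t : E → N) (g : N → ℕ),
  (∀ e, s e ≠ t e) → (∀ x, Even (g x)) → (∃ M : (gdg s t g).Subgraph, M.IsPerfectMatching) →
  ∃ J : E → Prop, ∀ x, Even (mdg s t J x) ∧ g x ≤ mdg s t J x

/-- CTL (no hypotheses, medium).  Control of the net flow at the high nodes.
PROOF. Call an edge at `x` upper if its other end has a larger `ord`; there are `< K` of them.  Call a set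
`X` of nodes closed if it contains with `x` all `x'` with `ord x < ord x'`.  By induction on `|X|` for
closed `X`: there is `y` with the first three properties such that the last property holds for all
`x ∈ X` (first part, integrality, for all `x`).  `X = ∅`: `y = 1/2` on `J`, `0` elsewhere; the net at every
node is integral because the number of `J`-edges at it is even.  Step: let `x` be the element of
`X` with the smallest `ord`, `y` for `X.erase x`.  If `x` is not high nothing is to do.  Otherwise change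
only values on the lower edges at `x` (other end of smaller `ord`, not in `X`), so nothing changes for
the other elements of `X`.  (a) `K + M ≤ mdg J x`: at least `M` lower edges at `x` have `J`.  First
make all of them `± 1/2` with the sign that makes the net at `x` smallest, then switch the sign of `q`
of them, which raises the net by `q`, `q = 0, ..., M - 1` suitable (mod `M`).  Nets at all nodes stay
integral (a switch changes them by `± 1`).  (b) `K + M ≤ mdg Br x`: the same with the values `0` and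
`1` or `-1` on `q` of at least `M` lower edges with `Br`. -/
def CtlStmt : Prop := ∀ (N E : Type) [Fintype N] [Fintype E] (s t : E → N) (ord : N → ℕ)
    (K M : ℕ) (J Br : E → Prop) (high : N → Prop) (ρ : N → ℤ),
  (∀ e, s e ≠ t e) → Function.Injective ord → 0 < M → (∀ e, ¬ (J e ∧ Br e)) →
  (∀ x, Even (mdg s t J x)) →
  (∀ x, cnt (fun e : E => (s e = x ∧ ord x < ord (t e)) ∨ (t e = x ∧ ord x < ord (s e))) < K) →
  (∀ x, high x → K + M ≤ mdg s t J x ∨ K + M ≤ mdg s t Br x) →
  ∃ y : E → ℝ, (∀ e, J e → |y e| = 1 / 2) ∧ (∀ e, Br e → |y e| ≤ 1) ∧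
    (∀ e, ¬ J e → ¬ Br e → y e = 0) ∧
    ∀ x, ∃ z : ℤ, (∑ e, open Classical in (if s e = x then y e else 0)) -
        (∑ e, open Classical in (if t e = x then y e else 0)) = (z : ℝ) ∧
      (high x → (M : ℤ) ∣ z - ρ x)

/-- CRX (uses BRG TUT ESJ CTL, STRONG).  The flow between the nodes.
PROOF. `E` = the pairs `(u, v)` with `H.Adj u v`, `t u = true`, `p u ≠ p v`; `s (u, v) = p u`,
`t (u, v) = p v`; every edge between different nodes is counted once (`t v = false`).  `E0` = the
subtype of the pairs with `¬ Bri H u v`.  For a set `𝒲` of nodes let `W` be the set of the `v` with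
`p v ∈ 𝒲`; `mct` of `𝒲` for `E0` is the number of the pairs of BRG for `W` (a pair of `E0` with the
first end in `W` and the second not is such a pair; one with the second end in `W` gives the
swapped pair; `Bri` is symmetric), so it is not `1`.  Put `g w = 2 k + M` if `w` has at
least `2 (2 k + M)` edges of `E0`, and `g w = 0` otherwise (`M` even).  TUT and ESJ give `J` on `E0`; extend it by
`False` to `E`.  `Br` = bridges.  CTL for `E` with `K = 2 k`: the edges at `w` whose other end has a larger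
`ord` are counted (once) in the hypothesis on `ord` (first entry in the node `w`).  HIGH: if
`4 (2 k + M) ≤ cut H (nde p w)` (this is the number of edges of `E` at `w`), then either `w` has
at least `2 (2 k + M)` edges of `E0`, so `g w = 2 k + M ≤ mdg J w`, or at least `2 (2 k + M)` bridges.
Define `x u v = y (u, v)` if `(u, v) ∈ E`, `x u v = y (v, u)` if `(v, u) ∈ E`, else `0`.  For `t v = true`:
`bd x v` is the sum of `y` over the pairs of `E` with first entry `v`; for `t v = false`, with second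
entry `v`.  So `net t p x w = ∑ (s e = w) y e - ∑ (t e = w) y e`. -/
def CrxStmt : Prop := ∀ (V : Type) [Fintype V] (H : SimpleGraph V) (t : V → Bool) (p : V → V)
    (ord : V → ℕ) (k M : ℕ) (ρ : V → ℤ),
  (∀ a b, H.Adj a b → t a ≠ t b) → Function.Injective ord → 0 < M → Even M →
  (∀ w, cnt (fun q : V × V => p q.1 = w ∧ H.Adj q.1 q.2 ∧ ord w < ord (p q.2)) < 2 * k) →
  ∃ x : V → V → ℝ, RLab H 1 x ∧ (∀ u v, p u = p v → x u v = 0) ∧
    (∀ u v, ¬ Bri H u v → |x u v| ≤ 1 / 2) ∧
    ∀ w, ∃ z : ℤ, net t p x w = (z : ℝ) ∧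
      (4 * (2 * k + M) ≤ cut H (nde p w) → (M : ℤ) ∣ z - ρ w)

/-! ## Block 4: Lemma A with a real shift -/

/-- CSR (no hypotheses, medium; model `Helper67_HEC/CST`).  Minimal energy in a real coset.
PROOF. As CST: `q b = b ⬝ A⁻¹ b ≥ μ * (b i) ^ 2`, `μ > 0`; for every `C` only finitely many `z : I → ℤ`
have `q (r + M z) ≤ C` (if `M ≥ 1`; `M = 0` is trivial), so one of them has the least `q`. -/
def CsrStmt : Prop := ∀ (I : Type) [Fintype I] [DecidableEq I] (A : Matrix I I ℝ) (M : ℕ) (r : I → ℝ),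
  A.PosDef →
  ∃ b : I → ℝ, (∃ z : I → ℤ, ∀ i, b i = r i + M * z i) ∧ ∀ z : I → ℤ,
    b ⬝ᵥ (A⁻¹ *ᵥ b) ≤ (fun i => b i + M * z i) ⬝ᵥ (A⁻¹ *ᵥ fun i => b i + M * z i)

open Classical in
/-- THR (uses `HEC.MinStmt` CSR, medium-strong; model `Helper81_HEC/THA`).  LEMMA A, real shift.
PROOF. As THA with `b = r + M z` real.  `V` empty: trivial.  Fix `o`; MIN gives `c`, `A = lap s t o c`, CSR
gives `b` on `Idx o`.  Put `b o = - ∑ (v ≠ o) b v`; since `∑ v, r v = M * z0` we have
`b o - r o = - ∑ (v ≠ o) (b v - r v) - M * z0`, a multiple of `M`.  The rest is the same. -/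
def ThrStmt : Prop := ∀ (V E : Type) [Fintype V] [Fintype E] (s t : E → V) (k : E → ℝ)
    (lam eta : ℝ) (M : ℕ) (r : V → ℝ) (z0 : ℤ),
  0 < lam → (∀ e, 0 < k e) → (∀ W : Finset V, W.Nonempty → W ≠ univ → lam ≤ mcut s t k W) →
  2 < eta * lam → 0 < M → ∑ v, r v = M * z0 →
  ∃ (z : V → ℤ) (y : E → ℝ), ∑ v, (r v + M * z v) = 0 ∧
    (∀ e, |y e| ≤ M / 2 * (eta * k e)) ∧
    ∀ v, (∑ e, if s e = v then y e else 0) - (∑ e, if t e = v then y e else 0) = r v + M * z v

/-- TWR (uses THR, medium-strong; model `Helper82_HEC/TWO`).  Lemma A with a real shift on one side of a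
bipartite graph; the proof of TWO word for word. -/
def TwrStmt : Prop := ∀ (V : Type) [Fintype V] (H : SimpleGraph V) (t : V → Bool) (L eta : ℝ)
    (M : ℕ) (r : V → ℝ) (z0 : ℤ),
  (∀ u v, H.Adj u v → t u ≠ t v) → 0 < L →
  (∀ W : Finset V, W.Nonempty → W ≠ univ → L ≤ (cut H W : ℝ)) →
  2 < eta * L → 0 < M → ∑ v, (if t v = true then r v else 0) = M * z0 →
  ∃ (z : V → ℤ) (x : V → V → ℝ), RLab H (M * eta) x ∧ (∀ v, t v = false → bd x v = 0) ∧
    (∀ v, t v = true → bd x v = r v + M * z v) ∧ ∑ v, bd x v = 0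

/-- T2R (uses TWR, easy; model `Helper94_HEC/TW2`).  Both sides: apply TWR to `t` and to
`fun v => !(t v)` and add. -/
def T2rStmt : Prop := ∀ (V : Type) [Fintype V] (H : SimpleGraph V) (t : V → Bool) (L eta : ℝ)
    (M : ℕ) (r : V → ℝ) (z0 z1 : ℤ),
  (∀ u v, H.Adj u v → t u ≠ t v) → 0 < L →
  (∀ W : Finset V, W.Nonempty → W ≠ univ → L ≤ (cut H W : ℝ)) →
  2 < eta * L → 0 < M → ∑ v, (if t v = true then r v else 0) = M * z0 →
  ∑ v, (if t v = true then 0 else r v) = M * z1 →
  ∃ (z : V → ℤ) (x : V → V → ℝ), RLab H (2 * M * eta) x ∧ (∀ v, bd x v = r v + M * z v) ∧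
    ∑ v, (if t v = true then bd x v else 0) = 0

/-- BLB (uses T2R, medium-strong).  Lemma A inside a blob, with a prescribed total `sig`.
PROOF. Let `F = res H U`, `m = e2 F > 0` (ordered pairs).  Let `β u v = 2 sig / m` if `F.Adj u v`, else `0`.
The pairs `(u, v)` with `F.Adj u v` and `t u = true` are `m / 2` many (swap), so
`∑ (v ∈ U, t v = true) bd β v = sig`, the same for `t v = false`.  Apply T2R to the subtype `{v // v ∈ U}` with the graph
`F` restricted to it and the residues `r v - bd β v`: their sums over the two sides are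
`(∑ r) - sig = M z0`, `M z1`.  For a nonempty `W ≠ univ` of the subtype, the cut of `W` is
`cut F (image of W) ≥ L`.  Extend the function `x'` obtained by `0` to `V`; `x = β + x'`.  It is supported on
`F`, `|x| ≤ 2 M eta + 2 |sig| / m`, `bd x v = bd β v + (r v - bd β v) + M z v` for `v ∈ U`, and the sum of `bd x` over the true
side of `U` is `sig + 0`. -/
def BlbStmt : Prop := ∀ (V : Type) [Fintype V] (H : SimpleGraph V) (t : V → Bool) (U : Finset V)
    (L eta : ℝ) (M : ℕ) (r : V → ℝ) (sig : ℝ) (z0 z1 : ℤ),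
  (∀ u v, H.Adj u v → t u ≠ t v) → 0 < L →
  (∀ A : Finset V, A ⊆ U → A.Nonempty → A ≠ U → L ≤ (cut (res H U) A : ℝ)) →
  2 < eta * L → 0 < M → 0 < e2 (res H U) →
  ∑ v ∈ U, (if t v = true then r v else 0) - sig = M * z0 →
  ∑ v ∈ U, (if t v = true then 0 else r v) - sig = M * z1 →
  ∃ (z : V → ℤ) (x : V → V → ℝ),
    RLab (res H U) (2 * M * eta + 2 * |sig| / (e2 (res H U) : ℝ)) x ∧
    (∀ v ∈ U, bd x v = r v + M * z v) ∧ ∑ v ∈ U, (if t v = true then bd x v else 0) = sig

/-- TUN (no hypotheses, easy-medium).  Simultaneous choice of representatives.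
PROOF. Let `z i = ⌊(a i - s i) / M⌋`, `σ' i = s i + M * z i`, so `a i - M < σ' i ≤ a i`.  The number
`D = A - ∑ σ' i = ∑ (a i - σ' i)` lies in `[0, M * card I)` (or is `0` if `I` is empty) and is a multiple of `M`, since
`∑ s i = A + M z0`: `D = M q`, `0 ≤ q ≤ card I`.  Add `M` to `σ' i` for `q` of the `i`. -/
def TunStmt : Prop := ∀ (I : Type) [Fintype I] (a s : I → ℝ) (A : ℝ) (M : ℕ) (z0 : ℤ), 0 < M →
  ∑ i, a i = A → ∑ i, s i = A + M * z0 →
  ∃ σ : I → ℝ, (∀ i, ∃ z : ℤ, σ i = s i + M * z) ∧ (∀ i, |σ i - a i| ≤ M) ∧ ∑ i, σ i = A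

/-! ## Block 5: residues -/

open Classical in
/-- RS5 (no hypotheses, medium-strong; compare `Helper41_HEC/RES`).  Residues.
PROOF. Call `v` interior if all `G`-neighbours of `v` are in the node of `v`.  For a low `w` the more than
`528 = 16 * 33` interior vertices `v` with `p v = w`, `t1 v = true` lie in 16 classes (values of `t2, ..., t5`), so one
class contains at least `33` of them: fix such a set `A w` of `33` vertices of one class, with basic
residue `ρ ∈ {2, 4, ..., 32}`.  `17 - ρ` is odd and its absolute value is at most `15`, so it is coprime to `34`;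
hence there is `q ∈ {0, ..., 33}` with
`34 ∣ ∑ (p v = w, t1 v = true) (c0 v - a v) + q * (17 - ρ) - τ w`.  Put `c v = 17` for `q` elements `v` of
`A w`.  In the same way for `t1 v = false`: `33` interior vertices of one class with basic residue
`ρ` odd, `ρ ≠ 17`, `1 ≤ ρ ≤ 33`; `- ρ` is coprime to `34`; put `c v = 0` for `q'` of them.  All other
vertices: `c v = c0 v`.  FIRST CLAIM: let `G.Adj u v` and let `u`, `v` be in different classes (this is
`¬ N.S.Adj u v`).  Neither is raised: `c0 u ≠ c0 v` by the definition of `rho` (injective on the 32 classes), both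
in `{1, ..., 33}`, so `34` does not divide the difference.  Exactly one is raised: `17` or `0` against a
basic residue in `{1, ..., 33}` different from `17`.  Both are raised: both are interior, so `p u = p v = w`; if
`t1 u = t1 v`, they are both in `A w` (or both in the set of the other side), so in the same
class, excluded; else the residues are `17` and `0`. -/
def Rs5Stmt : Prop := ∀ (V : Type) [Fintype V] (G : SimpleGraph V) (N : Nest5 G) (p : V → V)
    (low : V → Prop) (a τ τ' : V → ℤ),
  (∀ w, low w → 528 < cnt (fun v => p v = w ∧ N.t1 v = true ∧ ∀ u, G.Adj v u → p u = w) ∧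
    528 < cnt (fun v => p v = w ∧ N.t1 v = false ∧ ∀ u, G.Adj v u → p u = w)) →
  ∃ c : V → ℤ,
    (∀ u v, G.Adj u v → ¬ N.S.Adj u v → ¬ (34 : ℤ) ∣ c u - c v) ∧
    (∀ v, ¬ low (p v) → c v = N.c0 v) ∧
    ∀ w, low w →
      (34 : ℤ) ∣ ∑ v, (if p v = w ∧ N.t1 v = true then c v - a v else 0) - τ w ∧
      (34 : ℤ) ∣ ∑ v, (if p v = w ∧ N.t1 v = false then c v - a v else 0) - τ' w

/-! ## Block 6: sizes -/

/-- SIZ (uses CP5, medium).  Low nodes are big.
PROOF. Let `U = nde p w`, `H = N.H`.  For every `v`: `dg G v = cut G {v} ≤ 2 cut H {v} = 2 dg H v` (CP5 for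
`{v}`), so `dg H v ≥ 5000000`.  Let `v ∈ U`.  At most `cut H U < 112136` of the `H`-neighbours of `v` are outside
`U` (the pairs `(v, u)` are counted in `cut H U`), so at least `4887864` are in `U`, and they are
on the other side (`t1`).  The vertices of `U` with a `G`-neighbour outside `U` are at most
`cut G U ≤ 2 cut H U < 224272` many.  So `U` has more than `528` interior vertices on the side opposite
to `v`; starting with a neighbour of `v` in `U` instead of `v` we get the side of `v`. -/
def SizStmt : Prop := ∀ (V : Type) [Fintype V] (G : SimpleGraph V) (N : Nest5 G) (p : V → V) (w : V),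
  (∀ v, 10000000 ≤ dg G v) → p w = w → cut N.H (nde p w) < 112136 →
  528 < cnt (fun v => p v = w ∧ N.t1 v = true ∧ ∀ u, G.Adj v u → p u = w) ∧
  528 < cnt (fun v => p v = w ∧ N.t1 v = false ∧ ∀ u, G.Adj v u → p u = w)

/-- CRS (uses CP5, medium).  Few edges between the nodes; one low node; blobs have edges.
PROOF. `dg H v ≥ 5000000` as in SIZ.  Every pair `(u, v)` with `H.Adj u v`, `p u ≠ p v` has
`ord (p u) < ord (p v)` or `ord (p v) < ord (p u)`; the number of pairs of the first kind is
`∑ w, cnt (...) ≤ 28000 * card V`, the second kind the same (swap).  So their number is at most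
`56000 * card V`, and `e2 H = ∑ dg H v ≥ 5000000 * card V`; `89 * 56000 ≤ 5000000`.  LOW NODE (`V`
nonempty): let `w` be the representative (`p w = w`) with the smallest `ord`; all edges leaving its node
go to nodes of larger `ord` (`p (p v) = p v`), so `cut H (nde p w) < 28000`.  LAST: if
`nde p w` has two elements, `v` one of them, `14000 ≤ cut (res H (nde p w)) {v} = dg (res H (nde p w)) v`
and `e2 ≥ 2 *` this (pairs starting in `v` and pairs ending in `v`). -/
def CrsStmt : Prop := ∀ (V : Type) [Fintype V] (G : SimpleGraph V) (N : Nest5 G) (p : V → V)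
    (ord : V → ℕ),
  (∀ v, 10000000 ≤ dg G v) → (∀ v, p (p v) = p v) → Function.Injective ord →
  (∀ (w : V) (A : Finset V), A ⊆ nde p w → A.Nonempty → A ≠ nde p w →
    14000 ≤ cut (res N.H (nde p w)) A) →
  (∀ w, cnt (fun q : V × V => p q.1 = w ∧ N.H.Adj q.1 q.2 ∧ ord w < ord (p q.2)) < 28000) →
  89 * cnt (fun q : V × V => N.H.Adj q.1 q.2 ∧ p q.1 ≠ p q.2) ≤ e2 N.H ∧
  (Nonempty V → ∃ w, p w = w ∧ cut N.H (nde p w) < 28000) ∧
  (∀ w, 2 ≤ (nde p w).card → 28000 ≤ e2 (res N.H (nde p w))) ∧
  ∀ w, (nde p w).card = 1 → 112136 ≤ cut N.H (nde p w)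

/-! ## Block 7: assembly -/

/-- BLF (uses BLB TUN, STRONG).  All blobs together.  Here `xc` is the flow between the nodes, `X` its total,
`r` the residues, `M = 34`, `L = 14000`, `eta = 1 / 6900`.
PROOF. `ψ v = bd xc v`.  For a node `w` with `card = 1`, `nde p w = {w}` (`p w = w`), and the hypothesis on `net`
says `sg (t w) * ψ w = sg (t w) * r w` modulo `34`, so `ψ w - r w ∈ 34 ℤ`.  Let `I` be the type of the `w` with
`2 ≤ (nde p w).card`; the nodes of `I` and the singletons partition `V` (`v` is in the node `p v`).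
`s w = ∑ (v ∈ nde p w, t v = true) (r v - ψ v)` for `w : I`; then `∑ w, s w = - X + 34 z0`, where
`X = ∑ (t v = true) ψ v`, because the sum of `r v - ψ v` over all `v` with `t v = true` is `34 * _ - X` and
the singletons contribute multiples of `34`.  `m w = e2 (res H (nde p w)) ≥ 28000`,
`∑ w : I, m w = e2 H - #(cross pairs) ≥ (88 / 89) e2 H` (an edge inside a node is inside a node of `I`).
`a w = - X * m w / ∑ m`.  (If `I` is empty, then `e2 H = 0`; this is excluded by the hypothesis.)  TUN: `σ w = s w + 34 z`,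
`|σ w - a w| ≤ 34`, `∑ σ w = - X`.  BLB for `U = nde p w`, with `r - ψ` in the place of `r` and `sig = σ w`: the two
conditions hold, the second because
`∑ (t = true) (r - ψ) - ∑ (t = false) (r - ψ) = ∑ U sg r - net ∈ 34 ℤ`.  It gives `x_w`.
`x = xc + ∑ w : I, x_w`.  Boundary at `v` in the node `w : I`: `ψ v + (r v - ψ v) + 34 z`; at a singleton: `ψ v`.
Total over the true side: `X + ∑ σ w = 0`.  BOUNDS inside `w : I`:
`68 / 6900 + 2 |σ w| / m w ≤ 68 / 6900 + 2 |X| / ∑ m + 68 / 28000 ≤ 1 / 40`, because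
`|X| ≤ (1/2) #(cross pairs) ≤ e2 H / 178` (`|xc| ≤ 1`, `X` is the sum of `xc u v` over the cross pairs with `t u = true`, half of the cross pairs)
and `∑ m ≥ (88/89) e2 H`, so `2 |X| / ∑ m ≤ 1 / 88`.  Sum of the absolute values:
`#(cross pairs) + (1/40) e2 H ≤ (1/89 + 1/40) e2 H ≤ 0.13 e2 H`. -/
def BlfStmt : Prop := ∀ (V : Type) [Fintype V] (H : SimpleGraph V) (t : V → Bool) (p : V → V)
    (xc : V → V → ℝ) (r : V → ℤ),
  (∀ u v, H.Adj u v → t u ≠ t v) → (∀ v, p (p v) = p v) → 0 < e2 H →
  (∀ (w : V) (A : Finset V), A ⊆ nde p w → A.Nonempty → A ≠ nde p w →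
    14000 ≤ cut (res H (nde p w)) A) →
  89 * cnt (fun q : V × V => H.Adj q.1 q.2 ∧ p q.1 ≠ p q.2) ≤ e2 H →
  (∀ w, 2 ≤ (nde p w).card → 28000 ≤ e2 (res H (nde p w))) →
  RLab H 1 xc → (∀ u v, p u = p v → xc u v = 0) → (∀ u v, ¬ Bri H u v → |xc u v| ≤ 1 / 2) →
  (∀ w, ∃ z : ℤ, ∑ v ∈ nde p w, (sg (t v) : ℝ) * r v - net t p xc w = 34 * z) →
  (34 : ℤ) ∣ ∑ v, (if t v = true then r v else 0) →
  ∃ (b : V → ℤ) (x : V → V → ℝ), (∀ v, (34 : ℤ) ∣ b v - r v) ∧ ∑ v, b v = 0 ∧ RLab H 1 x ∧
    (∀ u v, ¬ Bri H u v → |x u v| ≤ 7 / 8) ∧ (∀ v, bd x v = (b v : ℝ)) ∧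
    100 * ∑ u, ∑ v, |x u v| ≤ 13 * (e2 H : ℝ)

/-- MAI (uses DEC CRX RS5 SIZ CRS BLF, STRONG; helper84).  Residues and flow for a graph of large
minimum degree.
PROOF. `V` empty: trivial.  `H = N.H`, DEC with `k = 14000`.  `a v = 2 dg G v + 17 dg N.S v`, `r0 = c0 - a`.
CRX with `M = 34` and `ρ w = ∑ v ∈ nde p w, sg (t1 v) * r0 v`: `xc` with integral nets `F w`, `34 ∣ F w - ρ w` if
`112136 = 4 (28000 + 34) ≤ cut H (nde p w)`.  `low w` := `p w = w ∧ cut H (nde p w) < 112136`.  Choose a low
`w*` (CRS).  `τ w = F w`, `τ' w = 0` for `w ≠ w*`; `τ w* = - (sum of r0 v over the v with t1 v = true whose node is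
not low) - ∑ (w low, w ≠ w*) F w`, `τ' w* = τ w* - F w*`.  RS5 (SIZ) gives `c`, `r = c - a`.  For all nodes
`∑ nde sg r = F w` mod `34`: low nodes by RS5, the others because `c = c0` there.  The sum of `r` over the
true side is `0` mod `34` by the choice of `τ w*`.  Nodes with one element are not low (CRS), harmless.  BLF. -/
def MaiStmt : Prop := ∀ (V : Type) [Fintype V] (G : SimpleGraph V) (N : Nest5 G),
  (∀ v, 10000000 ≤ dg G v) →
  ∃ (c b : V → ℤ) (x : V → V → ℝ),
    (∀ u v, G.Adj u v → ¬ N.S.Adj u v → ¬ (34 : ℤ) ∣ c u - c v) ∧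
    (∀ v, (34 : ℤ) ∣ b v - (c v - (2 * (dg G v : ℤ) + 17 * (dg N.S v : ℤ)))) ∧
    ∑ v, b v = 0 ∧ RLab N.H 1 x ∧ (∀ u v, ¬ Bri N.H u v → |x u v| ≤ 7 / 8) ∧
    (∀ v, bd x v = (b v : ℝ)) ∧ 100 * ∑ u, ∑ v, |x u v| ≤ 13 * (e2 N.H : ℝ)

/-- GDM (uses NS5 MAI P17 RE5, medium; model `Helper84_HEC/CONN`).
PROOF. Nest `N`; MAI; P17 with `S = N.S`, `φ v = 2 dg G v + b v` gives `f`; RE5 gives `x` with
`bd x = b + 17 bd f`.  PROPER: for an edge of `N.S` this is P17.  Otherwise `bd f v ≡ dg N.S v` mod 2, so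
`2 dg G v + bd x v ≡ 2 dg G v + (c v - 2 dg G v - 17 dg N.S v) + 17 dg N.S v = c v` mod 34.  TOTAL:
`∑ bd x = ∑ b + 17 ∑ bd f = 0`. -/
def GdmStmt : Prop := ∀ (V : Type) [Fintype V] (G : SimpleGraph V),
  (∀ v, 10000000 ≤ dg G v) → ∃ x : V → V → ℤ, Good G x

/-- ISO (uses GDM, medium; model `Helper81_HEC/UNI`).  Isolated vertices: apply GDM to the graph induced
on the subtype of the vertices with `dg G v ≠ 0` and extend `x` by `0`.  Degrees and boundaries of
these vertices do not change (all neighbours of a vertex are not isolated), isolated vertices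
have boundary `0`; `e2`, `sz`, `∑ bd` are the same. -/
def IsoStmt : Prop := ∀ (V : Type) [Fintype V] (G : SimpleGraph V),
  (∀ v, dg G v = 0 ∨ 10000000 ≤ dg G v) → ∃ x : V → V → ℤ, Good G x

open Pool.Agent.Helper51_Equitable in
/-- FN5 (uses ISO `HEC.ExaStmt` `HEC.NumStmt` `HEC.Fn1Stmt`, helper84; model `Helper84_HEC/FIN`). -/
def Fn5Stmt : Prop := ∀ (V : Type) [Fintype V] (G : SimpleGraph V),
  (∀ v, dg G v = 0 ∨ 10000000 ≤ dg G v) → ∃ ℓ : Sym2 V → ℕ, IsEquitableProper G 3 ℓ

end Pool.Agent.MDG
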