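import Pool.Agent.MDG.Stmts

/-!
# Squad MDG, block Z (MP_3faef8_co): the minimum degree theorem with the constant 10000

THEOREM.  Every finite graph in which every vertex has degree `0` or at least `10000` has an
equitable proper labelling with the labels `1, 2, 3`.

The rows are those of `Pool.Agent.MDG.Stmts` with `k = 165` instead of `14000`.  New: the sum of the
leverages gives a second bound in Lemma A (`∑ |y| ≤ (M/2) #V`), so that only the maximum of the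
flows inside the blobs restricts `k`; the number of edges between the nodes is at most `k #V` and
the number of bridges at most `#V`.
-/

set_option autoImplicit false

open Finset Matrix Pool.Agent.HEC

namespace Pool.Agent.MDG

/-! ## Lemma A with the sum of the flow -/

/-- TRC (no hypotheses, easy-medium).  Sum of the leverages.
PROOF. Let `A` be the matrix.  `x e ⬝ (A⁻¹ x e) = trace (A⁻¹ * vecMulVec (x e) (x e))`, so the sum is
`trace (A⁻¹ * A) = trace 1 = card I` (`A` is invertible: `PosDef.det_pos`). -/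
def TrcStmt : Prop := ∀ (I E : Type) [Fintype I] [DecidableEq I] [Fintype E] (c : E → ℝ)
    (x : E → I → ℝ), (∑ e, c e • vecMulVec (x e) (x e)).PosDef →
  ∑ e, c e * (x e ⬝ᵥ ((∑ e, c e • vecMulVec (x e) (x e))⁻¹ *ᵥ x e)) = (Fintype.card I : ℝ)

open Classical in
/-- THS (uses `HEC.MinStmt` CSR TRC, medium; model `Helper24_MDG/THR`).  THR with a second bound.
PROOF. As THR.  There `y e = c e * (chi e ⬝ φ)` and `|y e| ≤ (M / 2) * (c e * (chi e ⬝ (A⁻¹ chi e)))`; by TRC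
(`lap s t o c` is the matrix of TRC) the sum over `e` is at most `(M / 2) * card (Idx o) ≤ (M / 2) * card V`
(`Idx o` embeds into `V`).  `V` empty: `E` is empty. -/
def ThsStmt : Prop := ∀ (V E : Type) [Fintype V] [Fintype E] (s t : E → V) (k : E → ℝ)
    (lam eta : ℝ) (M : ℕ) (r : V → ℝ) (z0 : ℤ),
  0 < lam → (∀ e, 0 < k e) → (∀ W : Finset V, W.Nonempty → W ≠ univ → lam ≤ mcut s t k W) →
  2 < eta * lam → 0 < M → ∑ v, r v = M * z0 →
  ∃ (z : V → ℤ) (y : E → ℝ), ∑ v, (r v + M * z v) = 0 ∧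
    (∀ e, |y e| ≤ M / 2 * (eta * k e)) ∧ ∑ e, |y e| ≤ M / 2 * (Fintype.card V : ℝ) ∧
    ∀ v, (∑ e, if s e = v then y e else 0) - (∑ e, if t e = v then y e else 0) = r v + M * z v

/-- TWS (uses THS, medium; model `Helper36_MDG/TWR`).  TWR with a second bound.
PROOF. As TWR: THS is applied to `S = {v // t v = true}` and the edges `(w, u, u')`, and
`x w u = ∑ u', (y (w,u,u') - y (w,u',u))` (both directions), so
`∑ u, ∑ v, |x u v| ≤ 2 * 2 * ∑ e, |y e| ≤ 2 * M * card S`. -/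
def TwsStmt : Prop := ∀ (V : Type) [Fintype V] (H : SimpleGraph V) (t : V → Bool) (L eta : ℝ)
    (M : ℕ) (r : V → ℝ) (z0 : ℤ),
  (∀ u v, H.Adj u v → t u ≠ t v) → 0 < L →
  (∀ W : Finset V, W.Nonempty → W ≠ univ → L ≤ (cut H W : ℝ)) →
  2 < eta * L → 0 < M → ∑ v, (if t v = true then r v else 0) = M * z0 →
  ∃ (z : V → ℤ) (x : V → V → ℝ), RLab H (M * eta) x ∧ (∀ v, t v = false → bd x v = 0) ∧
    (∀ v, t v = true → bd x v = r v + M * z v) ∧ ∑ v, bd x v = 0 ∧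
    ∑ u, ∑ v, |x u v| ≤ 2 * M * (cnt (fun v => t v = true) : ℝ)

/-- T2S (uses TWS, easy; model `Helper94_MDG/T2R`).  T2R with a second bound: the two bounds of
TWS add up to `2 * M * card V`. -/
def T2sStmt : Prop := ∀ (V : Type) [Fintype V] (H : SimpleGraph V) (t : V → Bool) (L eta : ℝ)
    (M : ℕ) (r : V → ℝ) (z0 z1 : ℤ),
  (∀ u v, H.Adj u v → t u ≠ t v) → 0 < L →
  (∀ W : Finset V, W.Nonempty → W ≠ univ → L ≤ (cut H W : ℝ)) →
  2 < eta * L → 0 < M → ∑ v, (if t v = true then r v else 0) = M * z0 →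
  ∑ v, (if t v = true then 0 else r v) = M * z1 →
  ∃ (z : V → ℤ) (x : V → V → ℝ), RLab H (2 * M * eta) x ∧ (∀ v, bd x v = r v + M * z v) ∧
    ∑ v, (if t v = true then bd x v else 0) = 0 ∧
    ∑ u, ∑ v, |x u v| ≤ 2 * M * (Fintype.card V : ℝ)

/-- BLS (uses T2S, medium; model `Helper90_MDG/BLB`).  BLB with a second bound.
PROOF. As BLB: `x = β + x'`, `∑ ∑ |β| = m * (2 |sig| / m) = 2 |sig|`, and `∑ ∑ |x'| ≤ 2 * M * card U` by T2S for the
subtype. -/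
def BlsStmt : Prop := ∀ (V : Type) [Fintype V] (H : SimpleGraph V) (t : V → Bool) (U : Finset V)
    (L eta : ℝ) (M : ℕ) (r : V → ℝ) (sig : ℝ) (z0 z1 : ℤ),
  (∀ u v, H.Adj u v → t u ≠ t v) → 0 < L →
  (∀ A : Finset V, A ⊆ U → A.Nonempty → A ≠ U → L ≤ (cut (res H U) A : ℝ)) →
  2 < eta * L → 0 < M → 0 < e2 (res H U) →
  ∑ v ∈ U, (if t v = true then r v else 0) - sig = M * z0 →
  ∑ v ∈ U, (if t v = true then 0 else r v) - sig = M * z1 →
  ∃ (z : V → ℤ) (x : V → V → ℝ),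
    RLab (res H U) (2 * M * eta + 2 * |sig| / (e2 (res H U) : ℝ)) x ∧
    (∀ v ∈ U, bd x v = r v + M * z v) ∧ ∑ v ∈ U, (if t v = true then bd x v else 0) = sig ∧
    ∑ u, ∑ v, |x u v| ≤ 2 * |sig| + 2 * M * (U.card : ℝ)

/-! ## Decomposition -/

open Classical in
/-- DGT (no hypotheses, easy-medium; the first step of the proof of DEG, row of helper60).
PROOF. By strong induction on `|X|`, for `X ⊆ X0` nonempty:
`∑ w ∈ X, ∑ v ∈ X, d w v + 2 (k - 1) ≤ 2 (k - 1) |X|`.  `|X| = 1`: `d w w = 0`.  `|X| ≥ 2`: take `Y`; the double sum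
over `X` is the one over `Y` plus the one over `X \ Y` plus twice `∑ w ∈ Y, ∑ v ∈ X \ Y, d w v ≤ k - 1`
(symmetry).  `X` empty: `0 ≤ 0`. -/
def DgtStmt : Prop := ∀ (V : Type) [Fintype V] (d : V → V → ℕ) (k : ℕ) (X0 : Finset V), 1 ≤ k →
  (∀ w v, d w v = d v w) → (∀ w, d w w = 0) →
  (∀ X ⊆ X0, 2 ≤ X.card → ∃ Y ⊆ X, Y.Nonempty ∧ Y ≠ X ∧ ∑ w ∈ Y, ∑ v ∈ X \ Y, d w v < k) →
  ∀ X ⊆ X0, ∑ w ∈ X, ∑ v ∈ X, d w v ≤ 2 * k * X.card

/-- DEZ (uses BLO DEG DGT ORD, easy-medium; model `Helper3_MDG/DEC`).  DEC with the number of edges between the nodes.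
PROOF. As DEC; the pairs `(a, b)` with `H.Adj a b`, `p a ≠ p b` are the disjoint union over the pairs
`(w, v)` of representatives, `w ≠ v`, of the pairs counted in `nd2 H p w v`; so their number is
`∑ w ∈ X0, ∑ v ∈ X0, d w v ≤ 2 k |X0| ≤ 2 k card V` (DGT with `X = X0`). -/
def DezStmt : Prop := ∀ (V : Type) [Fintype V] (H : SimpleGraph V) (k : ℕ), 1 ≤ k →
  ∃ (p : V → V) (ord : V → ℕ), (∀ v, p (p v) = p v) ∧ Function.Injective ord ∧
    (∀ (w : V) (A : Finset V), A ⊆ nde p w → A.Nonempty → A ≠ nde p w →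
      k ≤ cut (res H (nde p w)) A) ∧
    (∀ w, cnt (fun q : V × V => p q.1 = w ∧ H.Adj q.1 q.2 ∧ ord w < ord (p q.2)) < 2 * k) ∧
    cnt (fun q : V × V => H.Adj q.1 q.2 ∧ p q.1 ≠ p q.2) ≤ 2 * k * Fintype.card V

/-- BRN (no hypotheses, medium).  There are at most `card V` bridges.
PROOF. Let `Q` be the type of the pairs `q = (u, v)` with `Bri H u v` and `t u = true`; the number of all
bridge pairs is `2 * card Q` (`Bri` is symmetric, exactly one of `t u`, `t v` is true).  For `q ∈ Q` let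
`W q` be a set with `cut H (W q) = 1` which separates the ends of `q`, and `x q : V → ℝ` the vector
`Pi.single u 1 - Pi.single v 1`.  The functional `ℓ q f = ∑ a ∈ W q, f a` has `ℓ q (x q) = ± 1`, and
`ℓ q (x q') = 0` for `q' ≠ q`: otherwise the ends of `q'` are separated by `W q`, and the pairs
`(a, b)`, `a ∈ W q`, `b ∉ W q`, `H.Adj a b` coming from `q` and `q'` are different (both have the
true end in the first place of `q`, `q'`), so `cut H (W q) ≥ 2`.  Hence the `x q` are linearly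
independent in `V → ℝ` and `card Q ≤ card V` (`LinearIndependent.fintype_card_le_finrank`). -/
def BrnStmt : Prop := ∀ (V : Type) [Fintype V] (H : SimpleGraph V) (t : V → Bool),
  (∀ u v, H.Adj u v → t u ≠ t v) →
  cnt (fun q : V × V => Bri H q.1 q.2) ≤ 2 * Fintype.card V

/-- XCS (uses BRN, easy).  Mass of the flow between the nodes.
PROOF. `2 |xc u v|` is at most `1` (if `H.Adj u v` and `p u ≠ p v`, else `0`) plus `1` (if `Bri H u v`, else `0`). -/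
def XcsStmt : Prop := ∀ (V : Type) [Fintype V] (H : SimpleGraph V) (t : V → Bool) (p : V → V)
    (xc : V → V → ℝ), (∀ u v, H.Adj u v → t u ≠ t v) → RLab H 1 xc →
  (∀ u v, p u = p v → xc u v = 0) → (∀ u v, ¬ Bri H u v → |xc u v| ≤ 1 / 2) →
  2 * ∑ u, ∑ v, |xc u v| ≤
    (cnt (fun q : V × V => H.Adj q.1 q.2 ∧ p q.1 ≠ p q.2) : ℝ) + 2 * (Fintype.card V : ℝ)

/-! ## Sizes -/

/-- SIS (uses CP5, easy-medium; model `Helper34_MDG/SIZ`).  SIZ with other numbers.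
PROOF. `dg H v ≥ 5000`.  At most `cut H U < 1456` of the `H`-neighbours of `v ∈ U` are outside `U`, so at least
`3545` are in `U`, on the other side; the vertices of `U` with a `G`-neighbour outside are at most
`cut G U ≤ 2 cut H U ≤ 2910` many; `3545 - 2910 = 635 > 528`. -/
def SisStmt : Prop := ∀ (V : Type) [Fintype V] (G : SimpleGraph V) (N : Nest5 G) (p : V → V) (w : V),
  (∀ v, 10000 ≤ dg G v) → p w = w → cut N.H (nde p w) < 1456 →
  528 < cnt (fun v => p v = w ∧ N.t1 v = true ∧ ∀ u, G.Adj v u → p u = w) ∧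
  528 < cnt (fun v => p v = w ∧ N.t1 v = false ∧ ∀ u, G.Adj v u → p u = w)

/-- CRT (uses CP5, easy-medium; model `Helper51_MDG/CRS`).  CRS with other numbers.
PROOF. `dg H v ≥ 5000`, `e2 H = ∑ dg H v`.  LOW NODE as in CRS.  THIRD: let `U = nde p w` have two elements; every
`v ∈ U` has `165 ≤ cut (res H U) {v}`, which is the number of its neighbours in `U`; so
`|U| ≥ 166` and `e2 (res H U) ≥ 165 * 166 = 27390`.  LAST: `nde p w = {v}`, `cut H {v} = dg H v ≥ 5000`. -/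
def CrtStmt : Prop := ∀ (V : Type) [Fintype V] (G : SimpleGraph V) (N : Nest5 G) (p : V → V)
    (ord : V → ℕ),
  (∀ v, 10000 ≤ dg G v) → (∀ v, p (p v) = p v) → Function.Injective ord →
  (∀ (w : V) (A : Finset V), A ⊆ nde p w → A.Nonempty → A ≠ nde p w →
    165 ≤ cut (res N.H (nde p w)) A) →
  (∀ w, cnt (fun q : V × V => p q.1 = w ∧ N.H.Adj q.1 q.2 ∧ ord w < ord (p q.2)) < 330) →
  5000 * Fintype.card V ≤ e2 N.H ∧
  (Nonempty V → ∃ w, p w = w ∧ cut N.H (nde p w) < 330) ∧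
  (∀ w, 2 ≤ (nde p w).card → 27390 ≤ e2 (res N.H (nde p w))) ∧
  ∀ w, (nde p w).card = 1 → 1456 ≤ cut N.H (nde p w)

/-! ## Assembly -/

/-- BFS (uses BLS TUN, STRONG; helper87).  BLF with other numbers: `M = 34`, `L = 165`, `eta = 1 / 82`.
PROOF. As BLF, `n = card V`.  `2 |X| ≤ ∑ ∑ |xc| ≤ 166 n`, `∑ m = e2 H - #(cross pairs) ≥ 4670 n`.  BOUNDS inside a
node: `68 / 82 + 2 |X| / ∑ m + 68 / 27390 ≤ 0.8293 + 0.0356 + 0.0025 ≤ 7 / 8`.  Sum of the absolute values: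
`166 n + ∑ w, (2 |σ w| + 68 |nde w|) ≤ 166 n + 2 (|X| + 34 n) + 68 n ≤ 468 n ≤ 0.13 * 5000 n`. -/
def BfsStmt : Prop := ∀ (V : Type) [Fintype V] (H : SimpleGraph V) (t : V → Bool) (p : V → V)
    (xc : V → V → ℝ) (r : V → ℤ),
  (∀ u v, H.Adj u v → t u ≠ t v) → (∀ v, p (p v) = p v) → 0 < e2 H →
  (∀ (w : V) (A : Finset V), A ⊆ nde p w → A.Nonempty → A ≠ nde p w →
    165 ≤ cut (res H (nde p w)) A) →
  cnt (fun q : V × V => H.Adj q.1 q.2 ∧ p q.1 ≠ p q.2) ≤ 330 * Fintype.card V →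
  5000 * Fintype.card V ≤ e2 H →
  (∀ w, 2 ≤ (nde p w).card → 27390 ≤ e2 (res H (nde p w))) →
  RLab H 1 xc → (∀ u v, p u = p v → xc u v = 0) → (∀ u v, ¬ Bri H u v → |xc u v| ≤ 1 / 2) →
  ∑ u, ∑ v, |xc u v| ≤ 166 * (Fintype.card V : ℝ) →
  (∀ w, ∃ z : ℤ, ∑ v ∈ nde p w, (sg (t v) : ℝ) * r v - net t p xc w = 34 * z) →
  (34 : ℤ) ∣ ∑ v, (if t v = true then r v else 0) →
  ∃ (b : V → ℤ) (x : V → V → ℝ), (∀ v, (34 : ℤ) ∣ b v - r v) ∧ ∑ v, b v = 0 ∧ RLab H 1 x ∧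
    (∀ u v, ¬ Bri H u v → |x u v| ≤ 7 / 8) ∧ (∀ v, bd x v = (b v : ℝ)) ∧
    100 * ∑ u, ∑ v, |x u v| ≤ 13 * (e2 H : ℝ)

/-- MAS (uses DEZ CRX RS5 SIS CRT XCS BFS, copy of `Helper84_MDG/MAI`; helper84).
PROOF. As MAI with `k = 165`, `2 k = 330`, `4 (2 k + 34) = 1456`.  XCS and DEZ: `2 ∑ ∑ |xc| ≤ 330 n + 2 n`. -/
def MasStmt : Prop := ∀ (V : Type) [Fintype V] (G : SimpleGraph V) (N : Nest5 G),
  (∀ v, 10000 ≤ dg G v) →
  ∃ (c b : V → ℤ) (x : V → V → ℝ),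
    (∀ u v, G.Adj u v → ¬ N.S.Adj u v → ¬ (34 : ℤ) ∣ c u - c v) ∧
    (∀ v, (34 : ℤ) ∣ b v - (c v - (2 * (dg G v : ℤ) + 17 * (dg N.S v : ℤ)))) ∧
    ∑ v, b v = 0 ∧ RLab N.H 1 x ∧ (∀ u v, ¬ Bri N.H u v → |x u v| ≤ 7 / 8) ∧
    (∀ v, bd x v = (b v : ℝ)) ∧ 100 * ∑ u, ∑ v, |x u v| ≤ 13 * (e2 N.H : ℝ)

/-- GDS (uses NS5 MAS P17 RE5, copy of `Helper84_MDG/GDM`; helper84). -/
def GdsStmt : Prop := ∀ (V : Type) [Fintype V] (G : SimpleGraph V),
  (∀ v, 10000 ≤ dg G v) → ∃ x : V → V → ℤ, Good G x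

/-- ISS (uses GDS, copy of `Helper9_MDG/ISO`). -/
def IssStmt : Prop := ∀ (V : Type) [Fintype V] (G : SimpleGraph V),
  (∀ v, dg G v = 0 ∨ 10000 ≤ dg G v) → ∃ x : V → V → ℤ, Good G x

/-- NUZ (no hypotheses, easy; model: the file of row NUM of squad HEC).
PROOF. `10001 ≤ n < 2^14`: `len n = 28`, `8 * 28 * 29² * 57 = 10737888 ≤ 1500 * 10001`, `2 * 28² = 1568`.  For
`2^k ≤ n < 2^(k+1)`, `k ≥ 14`: `len n = 2 k + 2`, and `8 (2k+2) (2k+3)² (4k+5) ≤ 1500 * 2^k`,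
`2 (2k+2)² ≤ 2^k` by induction on `k ≥ 14`. -/
def NuzStmt : Prop := ∀ n : ℕ, 10001 ≤ n →
  8 * len n * (len n + 1) ^ 2 * (2 * len n + 1) ≤ 1500 * n ∧ 2 * (len n) ^ 2 ≤ n

open Pool.Agent.Helper51_Equitable in
/-- FNS (uses ISS `HEC.ExaStmt` NUZ `HEC.Fn1Stmt`, copy of `Helper84_MDG/FN5`; helper84).
PROOF. As FIN of squad HEC with `dg G v ≥ 10000`, `n ≥ 10001`, `2 m ≥ 10000 n`: `D ≥ 0.37 m - (m + 2) / 3 ≥ n ≥ 2 L²` and
`96 n + 1500 n ≤ 2 z`, because `2 z ≥ 2 (m - 2) / 3 ≥ 3333 n - 2`. -/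
def FnsStmt : Prop := ∀ (V : Type) [Fintype V] (G : SimpleGraph V),
  (∀ v, dg G v = 0 ∨ 10000 ≤ dg G v) → ∃ ℓ : Sym2 V → ℕ, IsEquitableProper G 3 ℓ

end Pool.Agent.MDG
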