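import Pool.Agent.HEC.Stmts

/-!
# Squad MDG: equitable proper 3-labellings of graphs of large minimum degree (MP_3faef8_co)

Definitions.  They continue those of `Pool.Agent.HEC.Defs` (`cnt`, `e2`, `cut`, `dg`, `dif`, `sam`,
`res`, `bd`, `sz`, `Lab`, `RLab`, `Ori`, `sg`, `Good`, `mcut`, `lap`): a label is `2 + x`,
`bd x v = ∑ w, x v w`, counts `e2`, `sz` are counts of ordered pairs, `cut H W` is the number of
edges between `W` and its complement.
-/

set_option autoImplicit false

open Finset Pool.Agent.HEC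

namespace Pool.Agent.MDG

variable {V : Type}

/-- five nested maximum cuts -/
structure Nest5 [Fintype V] (G : SimpleGraph V) where
  t1 : V → Bool
  t2 : V → Bool
  t3 : V → Bool
  t4 : V → Bool
  t5 : V → Bool
  c1 : ∀ W : Finset V, cut (sam G t1) W ≤ cut (dif G t1) W
  c2 : ∀ W : Finset V, cut (sam (sam G t1) t2) W ≤ cut (dif (sam G t1) t2) W
  c3 : ∀ W : Finset V, cut (sam (sam (sam G t1) t2) t3) W ≤ cut (dif (sam (sam G t1) t2) t3) W
  c4 : ∀ W : Finset V, cut (sam (sam (sam (sam G t1) t2) t3) t4) W ≤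
    cut (dif (sam (sam (sam G t1) t2) t3) t4) W
  c5 : ∀ W : Finset V, cut (sam (sam (sam (sam (sam G t1) t2) t3) t4) t5) W ≤
    cut (dif (sam (sam (sam (sam G t1) t2) t3) t4) t5) W

namespace Nest5

variable [Fintype V] {G : SimpleGraph V} (N : Nest5 G)

/-- first level (the cut graph) -/
def H : SimpleGraph V := dif G N.t1
/-- second level -/
def E2 : SimpleGraph V := dif (sam G N.t1) N.t2
/-- third level -/
def E3 : SimpleGraph V := dif (sam (sam G N.t1) N.t2) N.t3
/-- fourth level -/
def E4 : SimpleGraph V := dif (sam (sam (sam G N.t1) N.t2) N.t3) N.t4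
/-- fifth level -/
def E5 : SimpleGraph V := dif (sam (sam (sam (sam G N.t1) N.t2) N.t3) N.t4) N.t5
/-- edges inside the 32 classes -/
def S : SimpleGraph V := sam (sam (sam (sam (sam G N.t1) N.t2) N.t3) N.t4) N.t5

end Nest5

/-- number of the class on its side, `0` to `15` -/
def cls (b2 b3 b4 b5 : Bool) : ℤ :=
  8 * (b2.toNat : ℤ) + 4 * (b3.toNat : ℤ) + 2 * (b4.toNat : ℤ) + (b5.toNat : ℤ)

/-- residue of a class: `2, 4, ..., 32` if `b1` is true, `1, 3, ..., 15, 19, 21, ..., 33` otherwise
(the residues `0` and `17` modulo `34` are not used) -/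
def rho (b1 b2 b3 b4 b5 : Bool) : ℤ :=
  if b1 = true then 2 * cls b2 b3 b4 b5 + 2
  else if b2 = true then 2 * cls b2 b3 b4 b5 + 3 else 2 * cls b2 b3 b4 b5 + 1

/-- the basic residue of the vertex `v` -/
def Nest5.c0 [Fintype V] {G : SimpleGraph V} (N : Nest5 G) (v : V) : ℤ :=
  rho (N.t1 v) (N.t2 v) (N.t3 v) (N.t4 v) (N.t5 v)

/-- the edge `uv` is a bridge of `H` -/
def Bri [Fintype V] (H : SimpleGraph V) (u v : V) : Prop :=
  H.Adj u v ∧ ∃ W : Finset V, cut H W = 1 ∧ ((u ∈ W ∧ v ∉ W) ∨ (u ∉ W ∧ v ∈ W))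

open Classical in
/-- the node `w` of the map `p : V → V`: all `v` with `p v = w` -/
noncomputable def nde [Fintype V] (p : V → V) (w : V) : Finset V := univ.filter fun v => p v = w

/-- number of edges of `H` from the node `w` to the node `v` -/
noncomputable def nd2 [Fintype V] (H : SimpleGraph V) (p : V → V) (w v : V) : ℕ :=
  cnt fun q : V × V => p q.1 = w ∧ p q.2 = v ∧ H.Adj q.1 q.2

open Classical in
/-- net flow of the label function `x` out of the node `w` -/
noncomputable def net [Fintype V] (t : V → Bool) (p : V → V) (x : V → V → ℝ) (w : V) : ℝ :=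
  ∑ v ∈ nde p w, (sg (t v) : ℝ) * bd x v

/-! ### Multigraphs with edge type `E`, ends `s e`, `t e` -/

section multi

variable {N E : Type} (s t : E → N)

/-- number of edges between `W` and its complement -/
noncomputable def mct [Fintype E] (W : Finset N) : ℕ :=
  cnt fun e : E => (s e ∈ W ∧ t e ∉ W) ∨ (s e ∉ W ∧ t e ∈ W)

/-- number of the edges at `x` which have the property `J` -/
noncomputable def mdg [Fintype E] (J : E → Prop) (x : N) : ℕ :=
  cnt fun e : E => J e ∧ (s e = x ∨ t e = x)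

variable (g : N → ℕ)

/-- a port `(x, e)` where `x` is an end of the edge `e`, or one of the `g x` dummies at `x` -/
def Prt : Type := {q : N × E // s q.2 = q.1 ∨ t q.2 = q.1} ⊕ (Σ x : N, Fin (g x))

noncomputable instance [Fintype N] [Fintype E] : Fintype (Prt s t g) := by
  classical
  exact inferInstanceAs (Fintype ({q : N × E // s q.2 = q.1 ∨ t q.2 = q.1} ⊕ (Σ x : N, Fin (g x))))

/-- adjacency of the gadget graph -/
def prtAdj : Prt s t g → Prt s t g → Prop
  | Sum.inl a, Sum.inl b => (a.1.1 = b.1.1 ∧ a.1.2 ≠ b.1.2) ∨ (a.1.1 ≠ b.1.1 ∧ a.1.2 = b.1.2)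
  | Sum.inl a, Sum.inr c => a.1.1 = c.1
  | Sum.inr c, Sum.inl a => a.1.1 = c.1
  | Sum.inr _, Sum.inr _ => False

/-- the gadget graph: the ports of `x` form a clique, the two ports of an edge are adjacent, a
dummy at `x` is adjacent to the ports of `x` -/
def gdg : SimpleGraph (Prt s t g) where
  Adj := prtAdj s t g
  symm := ⟨by
    rintro (a | a) (b | b) h
    · exact h.elim (fun h => Or.inl ⟨h.1.symm, fun h' => h.2 h'.symm⟩)
        (fun h => Or.inr ⟨fun h' => h.1 h'.symm, h.2.symm⟩)
    · exact h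
    · exact h
    · exact h⟩
  loopless := ⟨by
    rintro (a | a) h
    · exact h.elim (fun h => h.2 rfl) (fun h => h.1 rfl)
    · exact h⟩

end multi

end Pool.Agent.MDG
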