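import Pool.Agent.MDG.StmtsZ

/-!
# Squad MDG, block Y (MP_3faef8_co): offsets and independent vertices of small degree

THEOREM.  Let `G` be a finite graph and `D` a set of vertices such that every vertex of `D` has at
least `10000` neighbours in `D`, every edge has an end in `D`, and `3 * deg u < deg v` for every
edge `uv` with `u` outside `D`.  Then `G` has an equitable proper labelling with the labels
`1, 2, 3`.

PROOF.  Label the edges with an end outside `D` first, one third with each label; then treat `G[D]`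
as before, but with the sums `off v + bd x v` instead of `2 dg v + bd x v` (nothing changes in the
proof, the residue `r v` is only shifted).  At an edge `uv` with `u` outside `D` the sums are
`≤ 3 deg u < deg v ≤`.
-/

set_option autoImplicit false

open Finset Pool.Agent.HEC

namespace Pool.Agent.MDG

/-- a good labelling with the offset `off` -/
structure GoodO {V : Type} [Fintype V] (G : SimpleGraph V) (off : V → ℤ) (x : V → V → ℤ) :
    Prop where
  lab : Lab G x
  proper : ∀ u v, G.Adj u v → off u + bd x u ≠ off v + bd x v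
  tot : ∑ v, bd x v = 0
  few : 100 * sz x ≤ 63 * e2 G

/-- MAY (uses DEZ CRX RS5 SIS CRT XCS BFS; helper84). -/
def MayStmt : Prop := ∀ (V : Type) [Fintype V] (G : SimpleGraph V) (N : Nest5 G) (off : V → ℤ),
  (∀ v, 10000 ≤ dg G v) →
  ∃ (c b : V → ℤ) (x : V → V → ℝ),
    (∀ u v, G.Adj u v → ¬ N.S.Adj u v → ¬ (34 : ℤ) ∣ c u - c v) ∧
    (∀ v, (34 : ℤ) ∣ b v - (c v - (off v + 17 * (dg N.S v : ℤ)))) ∧
    ∑ v, b v = 0 ∧ RLab N.H 1 x ∧ (∀ u v, ¬ Bri N.H u v → |x u v| ≤ 7 / 8) ∧
    (∀ v, bd x v = (b v : ℝ)) ∧ 100 * ∑ u, ∑ v, |x u v| ≤ 13 * (e2 N.H : ℝ)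

/-- GDY (uses NS5 MAY P17 RE5; helper84). -/
def GdyStmt : Prop := ∀ (V : Type) [Fintype V] (G : SimpleGraph V) (off : V → ℤ),
  (∀ v, 10000 ≤ dg G v) → ∃ x : V → V → ℤ, GoodO G off x

/-- ISY (uses GDY; helper84). -/
def IsyStmt : Prop := ∀ (V : Type) [Fintype V] (G : SimpleGraph V) (off : V → ℤ),
  (∀ v, dg G v = 0 ∨ 10000 ≤ dg G v) → ∃ x : V → V → ℤ, GoodO G off x

open Pool.Agent.Helper51_Equitable in
/-- FNY (uses ISY `HEC.ExaStmt` NUZ `HEC.Fn1Stmt`; helper84). -/
def FnyStmt : Prop := ∀ (V : Type) [Fintype V] (G : SimpleGraph V) (D : V → Prop),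
  (∀ v, D v → 10000 ≤ cnt fun w => D w ∧ G.Adj v w) → (∀ u v, G.Adj u v → D u ∨ D v) →
  (∀ u v, G.Adj u v → ¬ D u → 3 * dg G u < dg G v) → ∃ ℓ : Sym2 V → ℕ, IsEquitableProper G 3 ℓ

end Pool.Agent.MDG
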